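import Pool.Agent.H90.KT.Law

/-!
# The formula for prime tuples in residue classes to large moduli, for almost all sets of shifts and all sets near them

The formula of the question is proved in all residue classes, and in mean square for all moduli up to `δ` times the number
of the prime tuples, for almost all sets `D` of `k` shifts up to `N`, and at the same time for ALL sets that arise from `D`
by moving its elements by arbitrary distances of at most a power of `log N`.

For all `k` and `ε > 0` there is `δ > 0` such that for all `A`, `B` and all large `N` the following is true for all but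
`N ^ k / (log N) ^ A` of the `k`-element sets `D` of integers in `[1, N]`: for all `k`-element sets `D'` in `[1, N]` which
arise from `D` by moving the elements by at most `(log N) ^ B`, and all integers `x` with `N / (log N) ^ B ≤ x ≤ N`, the
numbers of the `m ≤ x`, `m ≡ a` modulo `q`, for which `m` and all `m + d`, `d ∈ D'`, are primes, differ from the expected
numbers by at most `ε` times the square of the whole expected number `𝔖 x / (log x) ^ (k + 1)` in the sum of the squares
over all classes modulo all `q` with `Q ≤ q < 2 Q`, for all `Q ≤ δ 𝔖 x / (log x) ^ (k + 1)`.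

Method: the theorem of Barban, Davenport and Halberstam for tuples (library, `thmK`, for the bounded moduli), the theorem
on all sets of prime arguments of systems of polynomials in the hand-in `EveryNLargeModuli` of `MP_0bf1d2_nt` (the large
sieve for sifted sets, for the reduction of the large moduli to bounded ones) and a mean square bound for the weights.

No unproved hypothesis is made.
-/

set_option autoImplicit false

namespace Pool.Agent.Results.MP_485179_nt.AlmostAllTuplesLargeModuli

open Finset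

section Definitions

/-- The number of residue classes modulo `p` which meet `T`. -/
def nu (T : Finset ℕ) (p : ℕ) : ℕ := (T.image (· % p)).card

/-- The singular series of `T`. -/
noncomputable def 𝔖 (T : Finset ℕ) : ℝ :=
  ∏' p : Nat.Primes, (1 - (nu T p : ℝ) / p) / (1 - 1 / (p : ℝ)) ^ T.card

open Classical in
/-- The number of the integers `1 ≤ m ≤ x` in the class `a` modulo `q` for which `m` and all `m + d`, `d ∈ D`, are
primes. -/
noncomputable def count (D : Finset ℕ) (x q a : ℕ) : ℕ :=
  ((Icc 1 x).filter (fun m => m ≡ a [MOD q] ∧ ∀ d ∈ ({0} ∪ D : Finset ℕ), (m + d).Prime)).card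

/-- The class `a` modulo `q` is open: `a` and all `a + d`, `d ∈ D`, are coprime to `q`. -/
def Open (D : Finset ℕ) (q a : ℕ) : Prop := ∀ d ∈ ({0} ∪ D : Finset ℕ), Nat.Coprime (a + d) q

open Classical in
/-- The number of the open classes modulo `q`. -/
noncomputable def classes (D : Finset ℕ) (q : ℕ) : ℕ := ((range q).filter (fun a => Open D q a)).card

/-- `𝔖 x / (log x) ^ (k + 1)`, where `𝔖` is the singular series of `{0} ∪ D`. -/
noncomputable def main (k : ℕ) (D : Finset ℕ) (x : ℕ) : ℝ := 𝔖 ({0} ∪ D) * x / Real.log x ^ (k + 1)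

open Classical in
/-- The expected number in the class `a` modulo `q`. -/
noncomputable def predicted (k : ℕ) (D : Finset ℕ) (x q a : ℕ) : ℝ :=
  if Open D q a then main k D x / classes D q else 0

/-- For all `1 ≤ Q ≤ δ main` the sum over `Q ≤ q < 2 Q` and over all classes `a` modulo `q` of the squares of
`count - predicted` is at most `ε main ^ 2`. -/
def Law (k : ℕ) (δ ε : ℝ) (D : Finset ℕ) (x : ℕ) : Prop :=
  ∀ Q : ℕ, 1 ≤ Q → (Q : ℝ) ≤ δ * main k D x →
    ∑ q ∈ Ico Q (2 * Q), ∑ a ∈ range q, ((count D x q a : ℝ) - predicted k D x q a) ^ 2 ≤ ε * main k D x ^ 2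

/-- `D'` arises from `D` by moving every element by at most `L`. -/
def Near (L : ℝ) (D D' : Finset ℕ) : Prop := ∃ f : ℕ → ℕ, (∀ d ∈ D, |(f d : ℝ) - d| ≤ L) ∧ D' = D.image f

open Classical in
/-- The `k`-element sets `D` in `[1, N]` for which the law fails for some `k`-element set `D'` in `[1, N]` near `D` (at a
distance of at most `(log N) ^ B`) and some integer `x` with `N / (log N) ^ B ≤ x ≤ N`. -/
noncomputable def exceptions (k : ℕ) (δ ε : ℝ) (B N : ℕ) : Finset (Finset ℕ) :=
  ((Icc 1 N).powersetCard k).filter (fun D => ¬ ∀ D' ∈ (Icc 1 N).powersetCard k, Near (Real.log N ^ B) D D' →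
    ∀ x : ℕ, (N : ℝ) / Real.log N ^ B ≤ x → x ≤ N → Law k δ ε D' x)

end Definitions

/-! ### proofs -/

section Proofs

open Pool.Agent.H90.SK Pool.Agent.H90.KT

theorem S_eq (T : Finset ℕ) : 𝔖 T = Pool.Agent.Results.MP_485179_nt.AlmostPrimeProgressions.𝔖 T := rfl

theorem main_eq (k : ℕ) (D : Finset ℕ) (x : ℕ) : main k D x = mn k D x := rfl

theorem count_eq (D : Finset ℕ) (x q a : ℕ) : count D x q a = (PT D x q a).card := by
  classical
  unfold count PT
  congr 1
  apply filter_congr
  intro m _
  simp only [singleton_union, mem_insert, forall_eq_or_imp, add_zero]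

theorem open_iff (D : Finset ℕ) {q : ℕ} (hq : 1 ≤ q) (a : ℕ) : Open D q a ↔ AD (omT (insert 0 D)) q a := by
  unfold Open AD
  rw [singleton_union]
  constructor
  · intro h p hp hmem
    have hpp := Nat.prime_of_mem_primeFactors hp
    obtain ⟨t, ht, hd⟩ := (mem_omT (insert 0 D) hpp.pos a).1 hmem
    exact Nat.not_coprime_of_dvd_of_dvd hpp.one_lt hd (Nat.dvd_of_mem_primeFactors hp) (h t ht)
  · intro h t ht
    rw [Nat.coprime_iff_gcd_eq_one]
    by_contra hcon
    obtain ⟨p, hpp, hd⟩ := Nat.exists_prime_and_dvd hcon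
    have h1 := hd.trans (Nat.gcd_dvd_left _ _)
    have h2 := hd.trans (Nat.gcd_dvd_right _ _)
    exact h p (Nat.mem_primeFactors.2 ⟨hpp, h2, by omega⟩) ((mem_omT (insert 0 D) hpp.pos a).2 ⟨t, ht, h1⟩)

theorem classes_eq (D : Finset ℕ) {q : ℕ} (hq : 1 ≤ q) : classes D q = ad (omT (insert 0 D)) q := by
  classical
  unfold classes ad
  congr 1
  apply filter_congr
  intro a _
  exact open_iff D hq a

theorem predicted_eq (k : ℕ) (D : Finset ℕ) (x : ℕ) {q : ℕ} (hq : 1 ≤ q) (a : ℕ) :
    predicted k D x q a = mn k D x * mm (omT (insert 0 D)) q a := by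
  classical
  unfold predicted mm
  rw [classes_eq D hq, main_eq]
  by_cases h : Open D q a
  · rw [if_pos h, if_pos ((open_iff D hq a).1 h)]
    ring
  · rw [if_neg h, if_neg (fun h' => h ((open_iff D hq a).2 h')), mul_zero]

theorem law_of {k : ℕ} {δ ε : ℝ} {D : Finset ℕ} {x : ℕ} (h : LL k δ ε D x) : Law k δ ε D x := by
  intro Q hQ hQδ
  have h1 := h Q hQ hQδ
  refine le_trans (le_of_eq ?_) h1
  apply sum_congr rfl
  intro q hq
  rw [mem_Ico] at hq
  apply sum_congr rfl
  intro a _
  rw [count_eq, predicted_eq k D x (by omega : 1 ≤ q)]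

/-- the sets near `D'` -/
theorem near_card (k L : ℕ) (D' : Finset ℕ) (hD' : D'.card = k) :
    ((D'.biUnion (fun d => Icc (d - L) (d + L))).powersetCard k).card ≤ (k * (2 * L + 1)) ^ k := by
  classical
  rw [card_powersetCard]
  refine (Nat.choose_le_pow _ _).trans ?_
  apply Nat.pow_le_pow_left
  have h1 : (D'.biUnion (fun d => Icc (d - L) (d + L))).card ≤ D'.card * (2 * L + 1) := by
    apply card_biUnion_le_card_mul
    intro d _
    rw [Nat.card_Icc]
    omega
  rwa [hD'] at h1

theorem near_mem {k N : ℕ} {L : ℝ} {D D' : Finset ℕ} (hD : D ∈ (Icc 1 N).powersetCard k)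
    (h : Near L D D') : D ∈ (D'.biUnion (fun d => Icc (d - ⌊L⌋₊) (d + ⌊L⌋₊))).powersetCard k := by
  classical
  obtain ⟨f, hf, rfl⟩ := h
  rw [mem_powersetCard] at hD ⊢
  refine ⟨fun d hd => ?_, hD.2⟩
  rw [mem_biUnion]
  refine ⟨f d, mem_image_of_mem f hd, ?_⟩
  have h1 := abs_le.1 (hf d hd)
  rw [mem_Icc]
  have h2 : f d ≤ d + ⌊L⌋₊ := by
    have h3 : (f d : ℝ) ≤ d + L := by linarith
    rcases le_or_gt (f d) d with h4 | h4
    · omega
    · have h5 : f d - d ≤ ⌊L⌋₊ := by
        apply Nat.le_floor
        rw [Nat.cast_sub h4.le]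
        linarith
      omega
  have h3 : d ≤ f d + ⌊L⌋₊ := by
    have h3 : (d : ℝ) ≤ f d + L := by linarith
    rcases le_or_gt d (f d) with h4 | h4
    · omega
    · have h5 : d - f d ≤ ⌊L⌋₊ := by
        apply Nat.le_floor
        rw [Nat.cast_sub h4.le]
        linarith
      omega
  omega

end Proofs

/-- **The formula for prime tuples in residue classes to large moduli, for almost all sets of shifts and all sets near
them.** For all `k ≥ 1` and `ε > 0` there is `δ > 0` such that for all `A`, `B` and all large `N` all but at most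
`N ^ k / (log N) ^ A` of the `k`-element sets `D` of integers in `[1, N]` have the following property. For ALL `k`-element
sets `D'` in `[1, N]` which arise from `D` by moving its elements by at most `(log N) ^ B`, and all integers `x` with
`N / (log N) ^ B ≤ x ≤ N`, the law holds: for all `1 ≤ Q ≤ δ main`, where `main = 𝔖 x / (log x) ^ (k + 1)`, the sum over
all moduli `Q ≤ q < 2 Q` and all classes `a` modulo `q` of the squares of `count - predicted` is at most `ε main ^ 2`. -/
theorem result (k : ℕ) (hk : 1 ≤ k) (ε : ℝ) (hε : 0 < ε) : ∃ δ : ℝ, 0 < δ ∧ ∀ A B : ℕ, ∃ N₀ : ℕ, ∀ N : ℕ, N₀ ≤ N →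
    ((exceptions k δ ε B N).card : ℝ) ≤ (N : ℝ) ^ k / Real.log N ^ A := by
  classical
  obtain ⟨δ, hδ, h⟩ := Pool.Agent.H90.KT.law k ε hε
  refine ⟨δ, hδ, fun A B => ?_⟩
  obtain ⟨N₁, hN₁⟩ := h (A + B * k + 1) B
  have hlog : ∀ᶠ N : ℕ in Filter.atTop, ((3 * k : ℕ) : ℝ) ^ k ≤ Real.log N :=
    (Real.tendsto_log_atTop.comp tendsto_natCast_atTop_atTop).eventually_ge_atTop _
  obtain ⟨N₂, hN₂⟩ := Filter.eventually_atTop.1 hlog
  refine ⟨max N₁ N₂, fun N hN => ?_⟩
  have h1 := hN₁ N ((le_max_left _ _).trans hN)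
  have h2 := hN₂ N ((le_max_right _ _).trans hN)
  have hlog1 : 1 ≤ Real.log N := by
    refine le_trans ?_ h2
    apply one_le_pow₀
    exact_mod_cast (by omega : 1 ≤ 3 * k)
  set bad := ((Icc 1 N).powersetCard k).filter (fun D => ¬ ∀ x : ℕ, (N : ℝ) / Real.log N ^ B ≤ x → x ≤ N →
      Pool.Agent.H90.KT.LL k δ ε D x) with hbad
  set L : ℕ := ⌊Real.log N ^ B⌋₊ with hL
  have hLr : (L : ℝ) ≤ Real.log N ^ B := Nat.floor_le (by positivity)
  have hsub : exceptions k δ ε B N ⊆ bad.biUnion (fun D' =>
      (D'.biUnion (fun d => Icc (d - L) (d + L))).powersetCard k) := by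
    intro D hD
    unfold exceptions at hD
    rw [mem_filter] at hD
    obtain ⟨hD1, hD2⟩ := hD
    push Not at hD2
    obtain ⟨D', hD', hnear, x, hx1, hx2, hlaw⟩ := hD2
    rw [mem_biUnion]
    refine ⟨D', ?_, near_mem hD1 hnear⟩
    rw [hbad, mem_filter]
    exact ⟨hD', fun hall => hlaw (law_of (hall x hx1 hx2))⟩
  have hcard : (exceptions k δ ε B N).card ≤ bad.card * (k * (2 * L + 1)) ^ k := by
    refine (card_le_card hsub).trans ?_
    apply card_biUnion_le_card_mul
    intro D' hD'
    rw [hbad, mem_filter, mem_powersetCard] at hD'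
    exact near_card k L D' hD'.1.2
  have h3 : ((k * (2 * L + 1) : ℕ) : ℝ) ^ k ≤ Real.log N * Real.log N ^ (B * k) := by
    have h4 : ((k * (2 * L + 1) : ℕ) : ℝ) ≤ (3 * k : ℕ) * Real.log N ^ B := by
      have h5 : (1 : ℝ) ≤ Real.log N ^ B := one_le_pow₀ hlog1
      push_cast
      have h6 : (2 * (L : ℝ) + 1) ≤ 3 * Real.log N ^ B := by linarith
      have h7 : (0 : ℝ) ≤ k := Nat.cast_nonneg _
      nlinarith
    calc ((k * (2 * L + 1) : ℕ) : ℝ) ^ k ≤ ((3 * k : ℕ) * Real.log N ^ B) ^ k :=
          pow_le_pow_left₀ (Nat.cast_nonneg _) h4 _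
      _ = ((3 * k : ℕ) : ℝ) ^ k * Real.log N ^ (B * k) := by rw [mul_pow, ← pow_mul]
      _ ≤ _ := mul_le_mul_of_nonneg_right h2 (by positivity)
  calc ((exceptions k δ ε B N).card : ℝ) ≤ (bad.card * (k * (2 * L + 1)) ^ k : ℕ) := by exact_mod_cast hcard
    _ = (bad.card : ℝ) * ((k * (2 * L + 1) : ℕ) : ℝ) ^ k := by push_cast; ring
    _ ≤ ((N : ℝ) ^ k / Real.log N ^ (A + B * k + 1)) * (Real.log N * Real.log N ^ (B * k)) :=
        mul_le_mul h1 h3 (by positivity) (by positivity)
    _ = (N : ℝ) ^ k / Real.log N ^ A := by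
        have h4 : Real.log N ≠ 0 := by positivity
        have h5 : Real.log N ^ (A + B * k + 1) = Real.log N ^ A * (Real.log N * Real.log N ^ (B * k)) := by ring
        rw [h5]
        field_simp

end Pool.Agent.Results.MP_485179_nt.AlmostAllTuplesLargeModuli
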