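import Pool.Agent.H86.T7

set_option autoImplicit false

namespace Pool.Agent.Results.MP_485179_nt.BoxesAtFewPowerDistances
open Finset
open Classical

/-- The Hardy-Littlewood asymptotic for `(r + 1)`-tuples of primes on average over boxes of shifts whose sides may be as short as
`lam log N`, around almost all `r`-tuples of sums of few powers of `b`, with the first prime in an arbitrary set `Q` of primes.
For all `b ≥ 2`, `r`, `lam > 0` and `ε > 0` there are `k` and `N₀` such that for every `N ≥ N₀` there is a finite nonempty set `D` of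
positive integers up to `ε N`, each a sum of at most `k` powers of `b`, with the following property. For EVERY set `Q` of primes in
`(N, 2N]` and all `H 1, ..., H r` between `lam log N` and `N / 2`, for all but at most `ε |D|^r` of the `r`-tuples `d` of elements of
`D` the number of the `(p, h)` with `p ∈ Q` and `h ∈ [1, H 1] × ... × [1, H r]` for which all `p + d i + h i` are prime differs from
`|Q| ∏ (H i / log N)` by at most `ε (N / log N) ∏ (H i / log N)`. -/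
theorem result (b : ℕ) (hb : 2 ≤ b) (r : ℕ) (lam ε : ℝ) (hlam : 0 < lam) (hε : 0 < ε) :
    ∃ k N₀ : ℕ, ∀ N : ℕ, N₀ ≤ N → ∃ D : Finset ℕ, D.Nonempty ∧
      (∀ d ∈ D, 1 ≤ d ∧ (d : ℝ) ≤ ε * N ∧ ∃ l : List ℕ, l.length ≤ k ∧ d = (l.map (fun e => b ^ e)).sum) ∧
      ∀ Q : Finset ℕ, Q ⊆ Ioc N (2 * N) → (∀ p ∈ Q, p.Prime) → ∀ H : Fin r → ℕ, (∀ i, lam * Real.log N ≤ H i ∧ 2 * H i ≤ N) →
        (((Fintype.piFinset (fun _ : Fin r => D)).filter (fun d : Fin r → ℕ => ¬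
          |(((Q ×ˢ Fintype.piFinset (fun i => Icc 1 (H i))).filter (fun x => ∀ i, (x.1 + d i + x.2 i).Prime)).card : ℝ) -
            Q.card * ∏ i, (H i / Real.log N)| ≤ ε * (N / Real.log N) * ∏ i, (H i / Real.log N))).card : ℝ) ≤
          ε * (D.card : ℝ) ^ r := by
  obtain ⟨ε₁, hε₁⟩ : ∃ ε₁ : ℝ, ε₁ = min ε 1 := ⟨_, rfl⟩
  obtain ⟨lam₁, hlam₁⟩ : ∃ lam₁ : ℝ, lam₁ = min lam 1 := ⟨_, rfl⟩
  have hε₁0 : 0 < ε₁ := by rw [hε₁]; positivity
  have hε₁1 : ε₁ ≤ 1 := by rw [hε₁]; exact min_le_right _ _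
  have hε₁2 : ε₁ ≤ ε := by rw [hε₁]; exact min_le_left _ _
  have hlam₁0 : 0 < lam₁ := by rw [hlam₁]; positivity
  have hlam₁1 : lam₁ ≤ 1 := by rw [hlam₁]; exact min_le_right _ _
  have hlam₁2 : lam₁ ≤ lam := by rw [hlam₁]; exact min_le_left _ _
  obtain ⟨lam', hlam', δ₀, hδ₀, n₁, hgood⟩ := Pool.Agent.H86.PM.tuples_Q r lam₁ ε₁ hlam₁0 hlam₁1 hε₁0 hε₁1
  obtain ⟨δ', hδ'⟩ : ∃ δ' : ℝ, δ' = min (min 1 δ₀) ε := ⟨_, rfl⟩
  have hδ'0 : 0 < δ' := by rw [hδ']; positivity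
  have hδ'1 : δ' ≤ 1 := by rw [hδ']; exact (min_le_left _ _).trans (min_le_left _ _)
  have hδ'2 : δ' ≤ δ₀ := by rw [hδ']; exact (min_le_left _ _).trans (min_le_right _ _)
  have hδ'3 : δ' ≤ ε := by rw [hδ']; exact min_le_right _ _
  obtain ⟨b', e, hb', hbe⟩ : ∃ b' e : ℕ, 3 ≤ b' ∧ b' = b ^ e := by
    by_cases h : 3 ≤ b
    · exact ⟨b, 1, h, by simp⟩
    · exact ⟨4, 2, by norm_num, by rw [show b = 2 by omega]; norm_num⟩
  obtain ⟨k, n₃, hmain⟩ := Pool.Agent.H86.PW.shift3 b' hb' lam' δ' hlam' hδ'0 hδ'1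
  refine ⟨k, n₁ + n₃ + 2, fun N hN => ?_⟩
  obtain ⟨D, hD, hD1, hD2⟩ := hmain N (by omega)
  have hN0 : (2 : ℝ) ≤ N := by exact_mod_cast (by omega : 2 ≤ N)
  have hL0 : 0 < Real.log N := Real.log_pos (by linarith)
  refine ⟨D, hD, fun d hd => ?_, fun Q hQ hQp H hH => ?_⟩
  · obtain ⟨h1, ⟨l, hl1, hl2⟩, h3⟩ := hD1 d hd
    refine ⟨h1, h3.trans (mul_le_mul_of_nonneg_right hδ'3 (by linarith)), l.map (fun j => e * j), by rw [List.length_map]; exact hl1, ?_⟩
    rw [hl2, List.map_map]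
    congr 1
    apply List.map_congr_left
    intro j _
    simp only [Function.comp]
    rw [hbe, ← pow_mul]
  have hDN : ∀ d ∈ D, d ≤ N := by
    intro d hd
    have h1 := (hD1 d hd).2.2
    have h2 : δ' * N ≤ 1 * N := mul_le_mul_of_nonneg_right hδ'1 (by linarith)
    have h3 : (d : ℝ) ≤ N := by linarith
    exact_mod_cast h3
  have hH' : ∀ i, lam₁ * Real.log N ≤ H i ∧ 2 * H i ≤ N := fun i =>
    ⟨(mul_le_mul_of_nonneg_right hlam₁2 hL0.le).trans (hH i).1, (hH i).2⟩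
  have hfin := hgood N (by omega) δ' D hδ'0.le hδ'2 hDN hD2 Q hQ hQp H hH'
  refine le_trans ?_ (hfin.trans (mul_le_mul_of_nonneg_right hε₁2 (by positivity)))
  apply Nat.cast_le.2
  apply card_le_card
  intro d hd
  rw [mem_filter] at hd ⊢
  refine ⟨hd.1, fun hG => hd.2 ?_⟩
  -- the count
  have hcount : (((Q ×ˢ Fintype.piFinset (fun i => Icc 1 (H i))).filter (fun x => ∀ i, (x.1 + d i + x.2 i).Prime)).card : ℝ) =
      ∑ p ∈ Q, ∏ i, Pool.Agent.H86.PG.nn (H i) (p + d i) := by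
    have e1 : (((Q ×ˢ Fintype.piFinset (fun i => Icc 1 (H i))).filter (fun x => ∀ i, (x.1 + d i + x.2 i).Prime)).card : ℝ) =
        ∑ x ∈ Q ×ˢ Fintype.piFinset (fun i => Icc 1 (H i)), if (∀ i, (x.1 + d i + x.2 i).Prime) then (1 : ℝ) else 0 := by
      rw [← sum_filter, sum_const, nsmul_eq_mul, mul_one]
    rw [e1, sum_product]
    apply sum_congr rfl
    intro p _
    have e2 : ∀ i : Fin r, Pool.Agent.H86.PG.nn (H i) (p + d i) = ∑ h ∈ Icc 1 (H i), if (p + d i + h).Prime then (1 : ℝ) else 0 := by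
      intro i
      unfold Pool.Agent.H86.PG.nn
      exact Pool.Agent.H86.PW.pi_diff (p + d i) (H i)
    rw [prod_congr rfl (fun i _ => e2 i), prod_univ_sum]
    apply sum_congr rfl
    intro h _
    rw [prod_boole]
    simp
  rw [hcount]
  have e3 : 0 ≤ ∏ i, ((H i : ℝ) / Real.log N) := prod_nonneg fun i _ => by positivity
  rw [mul_comm (Q.card : ℝ)]
  refine hG.trans ?_
  have e4 : ε₁ * (∏ i, ((H i : ℝ) / Real.log N)) * (N / Real.log N) = ε₁ * (N / Real.log N) * ∏ i, ((H i : ℝ) / Real.log N) := by ring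
  rw [e4]
  apply mul_le_mul_of_nonneg_right _ e3
  apply mul_le_mul_of_nonneg_right hε₁2
  positivity

end Pool.Agent.Results.MP_485179_nt.BoxesAtFewPowerDistances
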