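import Pool.Agent.H90.SK.Fil

/-!
# Prime tuples with short shifts, and rotations of the circle

It is proved that for all real `α` outside a set of Hausdorff dimension at most `k η` the integers
`m ≤ x` for which `m` and all `m + d`, `d ∈ D`, are primes, and more generally the elements of an
arbitrary set of such integers, are asymptotically independent of the points `α m` of `ℝ/ℤ`, UNIFORMLY for
all `k`-element sets `D` of shifts up to `x ^ η`, with an error of `ε 𝔖 x / (log x) ^ (k + 1)`.  So outside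
one set of dimension zero the uniform asymptotic formula of the question is equivalent to the formula for
the `m` with `α m` in any fixed subset of `ℝ/ℤ` of positive measure with boundary of measure zero, and for
the `m` in the Beatty sequence of the integers `⌊α j + γ⌋`.

Method: the large sieve for sifted sets at arbitrary well-spaced points bounds the number of the cells of
length `1 / x` which contain a number `α` with a large exponential sum, for each `D`.

No unproved hypothesis is made.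
-/

set_option autoImplicit false

namespace Pool.Agent.Results.MP_485179_nt.Rotations

open Filter Topology MeasureTheory

section Definitions

/-- The number of residue classes modulo `p` which meet `T`. -/
def nu (T : Finset ℕ) (p : ℕ) : ℕ := (T.image (· % p)).card

/-- The singular series of `T`. -/
noncomputable def 𝔖 (T : Finset ℕ) : ℝ :=
  ∏' p : Nat.Primes, (1 - (nu T p : ℝ) / p) / (1 - 1 / (p : ℝ)) ^ T.card

/-- The integers `m` for which `m` and all `m + d`, `d ∈ D`, are primes. -/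
def tuples (D : Finset ℕ) : Set ℕ := {m : ℕ | ∀ d ∈ ({0} ∪ D : Finset ℕ), (m + d).Prime}

/-- The number of the `m ∈ S` with `m ≤ x`. -/
noncomputable def count (S : Set ℕ) (x : ℝ) : ℝ := (Set.ncard {m : ℕ | m ∈ S ∧ (m : ℝ) ≤ x} : ℝ)

/-- The sum of `G(α m)` over the `m ∈ S` with `m ≤ x`. -/
noncomputable def total (G : C(UnitAddCircle, ℂ)) (α : ℝ) (S : Set ℕ) (x : ℝ) : ℂ :=
  ∑ᶠ m ∈ {m : ℕ | m ∈ S ∧ (m : ℝ) ≤ x}, G ((m * α : ℝ) : UnitAddCircle)

/-- `𝔖 x / (log x) ^ (k + 1)`, where `𝔖` is the singular series of `{0} ∪ D`. -/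
noncomputable def size (k : ℕ) (D : Finset ℕ) (x : ℝ) : ℝ := 𝔖 ({0} ∪ D) * x / Real.log x ^ (k + 1)

/-- The integers `m` with `α m ∈ B` modulo one. -/
def bohr (α : ℝ) (B : Set UnitAddCircle) : Set ℕ := {m : ℕ | ((m * α : ℝ) : UnitAddCircle) ∈ B}

/-- The integers `m` of the form `⌊α j + γ⌋`. -/
def beatty (α γ : ℝ) : Set ℕ := {m : ℕ | ∃ j : ℤ, (m : ℤ) = ⌊α * j + γ⌋}

/-- For every `ε > 0`, for all large `x`, the number `E(D, x)` is at most `ε 𝔖 x / (log x) ^ (k + 1)` for
ALL `k`-element sets `D` of integers between `1` and `x ^ η` with `𝔖 ≠ 0`. -/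
def Small (k : ℕ) (η : ℝ) (E : Finset ℕ → ℝ → ℝ) : Prop :=
  ∀ ε : ℝ, 0 < ε → ∃ X : ℝ, ∀ x : ℝ, X ≤ x → ∀ D : Finset ℕ, D.card = k →
    (∀ d ∈ D, 1 ≤ d ∧ (d : ℝ) ≤ x ^ η) → 𝔖 ({0} ∪ D) ≠ 0 → E D x ≤ ε * size k D x

/-- The elements of the sets `S D` are asymptotically independent of the points `α m` of `ℝ/ℤ`, uniformly
for all `k`-element sets `D` of integers between `1` and `x ^ η`: the mean of every continuous function `G`
and the number of the `m` with `α m` in any set `B` with boundary of measure zero are as expected. -/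
def Independent (S : Finset ℕ → Set ℕ) (k : ℕ) (η α : ℝ) : Prop :=
  (∀ G : C(UnitAddCircle, ℂ), Small k η fun D x => ‖total G α (S D) x - (∫ y, G y) * count (S D) x‖) ∧
  (∀ B : Set UnitAddCircle, volume (frontier B) = 0 →
    Small k η fun D x => |count (S D ∩ bohr α B) x - (volume B).toReal * count (S D) x|)

/-- The asymptotic formula of the question for the `m` in the set `W` of density `c`: the number of the
`m ≤ x`, `m ∈ W`, for which `m` and all `m + d`, `d ∈ D`, are primes is
`(c + o(1)) 𝔖 x / (log x) ^ (k + 1)`, uniformly for all `k`-element sets `D` of integers in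
`[2, (log x) ^ (k + 1)]` with `𝔖 ≠ 0`.  For `W = ℕ`, `c = 1` this is the question. -/
def Formula (k : ℕ) (W : Set ℕ) (c : ℝ) : Prop :=
  ∀ ε : ℝ, 0 < ε → ∃ X : ℝ, ∀ x : ℝ, X ≤ x → ∀ D : Finset ℕ, D.card = k →
    (∀ d ∈ D, 2 ≤ d ∧ (d : ℝ) ≤ Real.log x ^ (k + 1)) → 𝔖 ({0} ∪ D) ≠ 0 →
    |count (tuples D ∩ W) x - c * size k D x| ≤ ε * size k D x

end Definitions

/-! ### proofs -/

section Proofs

open Finset Pool.Agent.H90.SK Pool.Agent.H90.ST Pool.Agent.Helper112
open scoped ENNReal

theorem S_eq (T : Finset ℕ) : 𝔖 T = Pool.Agent.Results.MP_485179_nt.AlmostPrimeProgressions.𝔖 T := rfl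

theorem size_eq (k : ℕ) (D : Finset ℕ) (x : ℝ) : size k D x = cc k (x, D) := rfl

theorem set_eq (S : Finset ℕ → Set ℕ) (hS : Fam S) (D : Finset ℕ) (x : ℝ) :
    {m : ℕ | m ∈ S D ∧ (m : ℝ) ≤ x} = ((MS S (x, D) : Finset ℕ) : Set ℕ) := by
  classical
  ext m
  unfold MS
  simp only [coe_filter, mem_Icc, Set.mem_ofPred_eq]
  constructor
  · rintro ⟨h1, h2⟩
    have h3 := hS D m h1 0 (by simp)
    rw [add_zero] at h3
    exact ⟨⟨h3.pos, Nat.le_floor h2⟩, h1⟩
  · rintro ⟨⟨h1, h2⟩, h3⟩
    refine ⟨h3, ?_⟩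
    by_cases hx : 0 ≤ x
    · exact (Nat.cast_le.2 h2).trans (Nat.floor_le hx)
    · rw [Nat.floor_of_nonpos (not_le.1 hx).le] at h2
      omega

theorem count_eq (S : Finset ℕ → Set ℕ) (hS : Fam S) (D : Finset ℕ) (x : ℝ) :
    count (S D) x = ((MS S (x, D)).card : ℝ) := by
  unfold count
  rw [set_eq S hS, Set.ncard_coe_finset]

theorem total_eq (S : Finset ℕ → Set ℕ) (hS : Fam S) (D : Finset ℕ) (x : ℝ) (G : C(UnitAddCircle, ℂ)) (α : ℝ) :
    total G α (S D) x = ∑ m ∈ MS S (x, D), G ((m * α : ℝ) : UnitAddCircle) := by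
  unfold total
  rw [set_eq S hS, finsum_mem_coe_finset]

open Classical in
theorem count_inter (S : Finset ℕ → Set ℕ) (hS : Fam S) (D : Finset ℕ) (x : ℝ) (α : ℝ) (B : Set UnitAddCircle) :
    count (S D ∩ bohr α B) x =
      (((MS S (x, D)).filter (fun m : ℕ => ((m * α : ℝ) : UnitAddCircle) ∈ B)).card : ℝ) := by
  unfold count
  rw [← Set.ncard_coe_finset]
  congr 2
  ext m
  rw [coe_filter]
  have h1 := Set.ext_iff.1 (set_eq S hS D x) m
  simp only [Set.mem_ofPred_eq, mem_coe] at h1
  simp only [Set.mem_ofPred_eq, ← h1]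
  constructor
  · rintro ⟨⟨h2, h3⟩, h4⟩; exact ⟨⟨h2, h4⟩, h3⟩
  · rintro ⟨⟨h2, h3⟩, h4⟩; exact ⟨⟨h2, h4⟩, h3⟩

/-- from limits along the filter -/
theorem small_of {k : ℕ} {η : ℝ} {E : Finset ℕ → ℝ → ℝ} (h : Tendsto (fun θ : ℝ × Finset ℕ =>
    E θ.2 θ.1 / cc k θ) (FF k η) (𝓝 0)) : Small k η E := by
  intro ε hε
  have h1 := (Metric.tendsto_nhds.1 h ε hε)
  obtain ⟨X, hX⟩ := mem_FF.1 h1
  refine ⟨max X 2, fun x hx D hD hd hS => ?_⟩
  have hθ : ((x, D) : ℝ × Finset ℕ) ∈ Reg k η (max X 2) := ⟨hx, hD, hd, hS⟩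
  have hθ' : ((x, D) : ℝ × Finset ℕ) ∈ Reg k η X := ⟨(le_max_left _ _).trans hx, hD, hd, hS⟩
  have hc := cc_pos (le_max_right _ _) hθ
  have h2 : dist (E D x / cc k (x, D)) 0 < ε := hX hθ'
  rw [dist_zero_right, Real.norm_eq_abs] at h2
  have h3 := (le_abs_self _).trans h2.le
  rw [div_le_iff₀ hc] at h3
  exact h3

/-- the basic statement -/
theorem ind {S : Finset ℕ → Set ℕ} (hS : Fam S) {k : ℕ} {η α W X₀ : ℝ} (hW0 : 0 < W) (hX₀ : 2 ≤ X₀)
    (hW : ∀ θ ∈ Reg k η X₀, ((MS S θ).card : ℝ) ≤ W * cc k θ)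
    (h : ∀ h : ℤ, h ≠ 0 → Tendsto (fun θ => (∑ m ∈ MS S θ, ee (m * (h * α))) / (cc k θ : ℂ)) (FF k η) (𝓝 0)) :
    Independent S k η α := by
  classical
  have hc : ∀ᶠ θ in FF k η, 0 < cc k θ ∧ ((MS S θ).card : ℝ) ≤ W * cc k θ :=
    mem_FF.2 ⟨X₀, fun θ hθ => ⟨cc_pos hX₀ hθ, hW θ hθ⟩⟩
  have hG := circG hW0.le hc h
  constructor
  · intro G
    apply small_of
    have h1 := (hG G).norm
    rw [norm_zero] at h1
    refine h1.congr' ?_
    filter_upwards [hc] with θ hθ
    rw [norm_div, Complex.norm_real, Real.norm_of_nonneg hθ.1.le]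
    congr 2
    have e : θ = (θ.1, θ.2) := rfl
    rw [total_eq S hS, count_eq S hS]
    unfold LG
    rw [sum_sub_distrib, sum_const, nsmul_eq_mul]
    push_cast
    ring
  · intro B hB
    apply small_of
    have h1 := (jordanG hW0.le hc hG hB).abs
    rw [abs_zero] at h1
    refine h1.congr' ?_
    filter_upwards [hc] with θ hθ
    rw [abs_div, abs_of_pos hθ.1]
    congr 2
    rw [count_inter S hS, count_eq S hS]

theorem fam_tuples : Fam tuples := fun _ _ h => h

/-- small shifts -/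
theorem log_le (k : ℕ) {η : ℝ} (hη : 0 < η) : ∃ X : ℝ, ∀ x : ℝ, X ≤ x → Real.log x ^ (k + 1) ≤ x ^ η := by
  have h1 : (fun x : ℝ => Real.log x ^ (k + 1)) =o[atTop] fun x => x ^ η := by
    have := isLittleO_log_rpow_rpow_atTop (s := η) ((k + 1 : ℕ) : ℝ) hη
    refine this.congr' ?_ (by rfl)
    filter_upwards with x
    rw [Real.rpow_natCast]
  have h2 := h1.bound (show (0 : ℝ) < 1 by norm_num)
  obtain ⟨X, hX⟩ := eventually_atTop.1 h2
  refine ⟨max X 0, fun x hx => ?_⟩
  have h3 := hX x ((le_max_left _ _).trans hx)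
  have hx0 : 0 ≤ x := (le_max_right _ _).trans hx
  rw [one_mul, Real.norm_eq_abs, Real.norm_eq_abs, abs_of_nonneg (Real.rpow_nonneg hx0 η)] at h3
  exact (le_abs_self _).trans h3

/-- the equivalence -/
theorem equiv {k : ℕ} {η α : ℝ} (hη : 0 < η) (h : Independent tuples k η α) {B : Set UnitAddCircle}
    (hB : volume (frontier B) = 0) (hB0 : 0 < volume B) :
    Formula k Set.univ 1 ↔ Formula k (bohr α B) (volume B).toReal := by
  have hs := h.2 B hB
  have hv0 : 0 < (volume B).toReal := ENNReal.toReal_pos hB0.ne' (measure_ne_top _ _)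
  have hv1 : (volume B).toReal ≤ 1 := by
    have h1 : volume B ≤ 1 := by
      rw [← UnitAddCircle.measure_univ]; exact measure_mono (Set.subset_univ _)
    have := ENNReal.toReal_mono ENNReal.one_ne_top h1
    simpa using this
  set v := (volume B).toReal with hv
  obtain ⟨X₁, hX₁⟩ := log_le k hη
  constructor
  · intro hF ε hε
    obtain ⟨X₂, hX₂⟩ := hF (ε / 2) (by positivity)
    obtain ⟨X₃, hX₃⟩ := hs (ε / 2) (by positivity)
    refine ⟨max (max X₁ X₂) (max X₃ 2), fun x hx D hD hd hS => ?_⟩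
    have hx1 : X₁ ≤ x := ((le_max_left _ _).trans (le_max_left _ _)).trans hx
    have hx2 : X₂ ≤ x := ((le_max_right _ _).trans (le_max_left _ _)).trans hx
    have hx3 : X₃ ≤ x := ((le_max_left _ _).trans (le_max_right _ _)).trans hx
    have hx4 : 2 ≤ x := ((le_max_right _ _).trans (le_max_right _ _)).trans hx
    have hd' : ∀ d ∈ D, 1 ≤ d ∧ (d : ℝ) ≤ x ^ η := fun d hdD =>
      ⟨by have := (hd d hdD).1; omega, (hd d hdD).2.trans (hX₁ x hx1)⟩
    have hc : 0 < size k D x := by
      rw [size_eq]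
      exact cc_pos hx4 (show ((x, D) : ℝ × Finset ℕ) ∈ Reg k η x from ⟨le_rfl, hD, hd', hS⟩)
    have h1 := hX₂ x hx2 D hD hd hS
    have h2 : |count (tuples D ∩ bohr α B) x - v * count (tuples D) x| ≤ ε / 2 * size k D x :=
      hX₃ x hx3 D hD hd' hS
    rw [Set.inter_univ] at h1
    have e : count (tuples D ∩ bohr α B) x - v * size k D x =
        (count (tuples D ∩ bohr α B) x - v * count (tuples D) x) +
          v * (count (tuples D) x - 1 * size k D x) := by ring
    rw [e]
    refine (abs_add_le _ _).trans ?_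
    rw [abs_mul, abs_of_pos hv0]
    have h3 : v * |count (tuples D) x - 1 * size k D x| ≤ 1 * (ε / 2 * size k D x) :=
      mul_le_mul hv1 h1 (abs_nonneg _) zero_le_one
    linarith
  · intro hF ε hε
    obtain ⟨X₂, hX₂⟩ := hF (ε * v / 2) (by positivity)
    obtain ⟨X₃, hX₃⟩ := hs (ε * v / 2) (by positivity)
    refine ⟨max (max X₁ X₂) (max X₃ 2), fun x hx D hD hd hS => ?_⟩
    have hx1 : X₁ ≤ x := ((le_max_left _ _).trans (le_max_left _ _)).trans hx
    have hx2 : X₂ ≤ x := ((le_max_right _ _).trans (le_max_left _ _)).trans hx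
    have hx3 : X₃ ≤ x := ((le_max_left _ _).trans (le_max_right _ _)).trans hx
    have hx4 : 2 ≤ x := ((le_max_right _ _).trans (le_max_right _ _)).trans hx
    have hd' : ∀ d ∈ D, 1 ≤ d ∧ (d : ℝ) ≤ x ^ η := fun d hdD =>
      ⟨by have := (hd d hdD).1; omega, (hd d hdD).2.trans (hX₁ x hx1)⟩
    have hc : 0 < size k D x := by
      rw [size_eq]
      exact cc_pos hx4 (show ((x, D) : ℝ × Finset ℕ) ∈ Reg k η x from ⟨le_rfl, hD, hd', hS⟩)
    have h1 := hX₂ x hx2 D hD hd hS
    have h2 : |count (tuples D ∩ bohr α B) x - v * count (tuples D) x| ≤ ε * v / 2 * size k D x :=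
      hX₃ x hx3 D hD hd' hS
    rw [Set.inter_univ]
    have e : v * (count (tuples D) x - 1 * size k D x) =
        (count (tuples D ∩ bohr α B) x - v * size k D x) -
        (count (tuples D ∩ bohr α B) x - v * count (tuples D) x) := by ring
    have h3 : v * |count (tuples D) x - 1 * size k D x| ≤ v * (ε * size k D x) := by
      calc v * |count (tuples D) x - 1 * size k D x| = |v * (count (tuples D) x - 1 * size k D x)| := by
            rw [abs_mul, abs_of_pos hv0]
        _ ≤ |count (tuples D ∩ bohr α B) x - v * size k D x| +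
          |count (tuples D ∩ bohr α B) x - v * count (tuples D) x| := by rw [e]; exact abs_sub _ _
        _ ≤ _ := by linarith
    exact le_of_mul_le_mul_left h3 hv0

end Proofs

/-- **Prime tuples with short shifts and rotations.**

(1) For every family of sets `S D ⊆ tuples D` (for instance `S D = tuples D`, or the elements of `tuples D`
in residue classes which depend on `D`), all `k` and `η > 0`: the real numbers `α` for which the elements
of the sets `S D` are not independent of the points `α m`, uniformly for all `k`-element sets `D` of shifts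
up to `x ^ η`, form a set of Hausdorff dimension at most `k η`.

(2) There is a set `T` of dimension zero such that for all `α` outside `T`, for all `k`: (a) for some
`η > 0` the prime tuples are independent of the points `α m` uniformly for the shifts up to `x ^ η`; (b) the
formula of the question is equivalent to the formula for the `m` with `α m ∈ B`, for every subset `B` of
`ℝ/ℤ` with boundary of measure zero and positive measure; (c) if `α > 1`, it is equivalent to the formula
for the `m` in the Beatty sequence of the `⌊α j + γ⌋`, for every real `γ`. -/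
theorem result :
    (∀ S : Finset ℕ → Set ℕ, (∀ D, S D ⊆ tuples D) → ∀ (k : ℕ) (η : ℝ), 0 < η →
      dimH {α : ℝ | ¬ Independent S k η α} ≤ ENNReal.ofReal (k * η)) ∧
    ∃ T : Set ℝ, dimH T = 0 ∧ ∀ α : ℝ, α ∉ T → ∀ k : ℕ,
      (∃ η : ℝ, 0 < η ∧ Independent tuples k η α) ∧
      (∀ B : Set UnitAddCircle, volume (frontier B) = 0 → 0 < volume B →
        (Formula k Set.univ 1 ↔ Formula k (bohr α B) (volume B).toReal)) ∧
      (1 < α → ∀ γ : ℝ, (Formula k Set.univ 1 ↔ Formula k (beatty α γ) (1 / α))) := by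
  have main : ∀ S : Finset ℕ → Set ℕ, (∀ D, S D ⊆ tuples D) → ∀ (k : ℕ) (η : ℝ), 0 < η →
      dimH {α : ℝ | ¬ Independent S k η α} ≤ ENNReal.ofReal (k * η) := by
    intro S hS k η hη
    obtain ⟨W, X₀, hW0, hX₀, h⟩ := Pool.Agent.H90.SK.uni k
    have hF : Pool.Agent.H90.SK.Fam S := fun D n hn => hS D hn
    obtain ⟨hW, h2⟩ := h S hF
    obtain ⟨T, hT, hT2⟩ := h2 η hη
    refine (dimH_mono ?_).trans hT
    intro α hα
    by_contra hcon
    exact hα (ind hF hW0 hX₀ (hW η) (hT2 α hcon))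
  refine ⟨main, ?_⟩
  set T₀ : Set ℝ := ⋃ k : ℕ, ⋂ n : ℕ, {α : ℝ | ¬ Independent tuples k (1 / ((n : ℝ) + 1)) α} with hT₀
  have hdim : dimH T₀ = 0 := by
    apply le_antisymm _ bot_le
    rw [hT₀, dimH_iUnion]
    apply iSup_le
    intro k
    apply le_of_forall_pos_le_add'
    intro δ hδ
    obtain ⟨n, hn⟩ := exists_nat_one_div_lt (show (0 : ℝ) < δ / (k + 1) by positivity)
    have h1 : dimH (⋂ n : ℕ, {α : ℝ | ¬ Independent tuples k (1 / ((n : ℝ) + 1)) α}) ≤
        dimH {α : ℝ | ¬ Independent tuples k (1 / ((n : ℝ) + 1)) α} :=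
      dimH_mono (Set.iInter_subset _ n)
    refine h1.trans ((main tuples (fun _ => subset_rfl) k _ (by positivity)).trans ?_)
    apply ENNReal.ofReal_le_ofReal
    calc (k : ℝ) * (1 / ((n : ℝ) + 1)) ≤ (k : ℝ) * (δ / (k + 1)) :=
          mul_le_mul_of_nonneg_left hn.le (Nat.cast_nonneg _)
      _ = δ * (k / (k + 1)) := by ring
      _ ≤ δ * 1 := by
          apply mul_le_mul_of_nonneg_left _ hδ.le
          rw [div_le_one (by positivity)]
          linarith
      _ = δ := mul_one δ
  refine ⟨T₀ ∪ (fun x : ℝ => x⁻¹) '' (T₀ ∩ Set.Ioi 0), ?_, ?_⟩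
  · rw [dimH_union, hdim]
    apply le_antisymm _ bot_le
    apply max_le le_rfl
    have h1 : ContDiffOn ℝ 1 (fun x : ℝ => x⁻¹) (Set.Ioi 0) := by
      intro x hx
      exact (contDiffAt_inv ℝ (ne_of_gt hx)).contDiffWithinAt
    refine (h1.dimH_image_le (convex_Ioi 0) Set.inter_subset_right).trans ?_
    exact (dimH_mono Set.inter_subset_left).trans hdim.le
  · intro α hα k
    have hα0 : α ∉ T₀ := fun h => hα (Or.inl h)
    have key : ∀ β : ℝ, β ∉ T₀ → ∃ η : ℝ, 0 < η ∧ Independent tuples k η β := by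
      intro β hβ
      by_contra hcon
      push Not at hcon
      apply hβ
      rw [hT₀, Set.mem_iUnion]
      refine ⟨k, ?_⟩
      rw [Set.mem_iInter]
      intro n
      exact hcon _ (by positivity)
    obtain ⟨η, hη, hI⟩ := key α hα0
    refine ⟨⟨η, hη, hI⟩, fun B hB hB0 => equiv hη hI hB hB0, fun hα1 γ => ?_⟩
    have hpos : 0 < α := by linarith
    have hα2 : α⁻¹ ∉ T₀ := by
      intro h
      apply hα
      right
      exact ⟨α⁻¹, ⟨h, Set.mem_Ioi.2 (inv_pos.2 hpos)⟩, inv_inv α⟩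
    obtain ⟨η', hη', hI'⟩ := key α⁻¹ hα2
    have h1 := equiv hη' hI' (Pool.Agent.H90.ST.frontier_beatty α γ) (Pool.Agent.H90.ST.volume_beatty hpos γ)
    rw [Pool.Agent.H90.SK.volume_beattySet hα1] at h1
    have e : bohr α⁻¹ (Pool.Agent.H90.ST.beattySet α γ) = beatty α γ := by
      ext m
      exact (Pool.Agent.H90.ST.beatty_iff hpos γ m).symm
    rw [e] at h1
    exact h1
where
  le_of_forall_pos_le_add' {a : ENNReal} (h : ∀ δ : ℝ, 0 < δ → a ≤ ENNReal.ofReal δ) : a ≤ 0 := by
    apply ENNReal.le_of_forall_pos_le_add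
    intro δ hδ _
    rw [zero_add]
    have := h δ hδ
    rwa [ENNReal.ofReal_coe_nnreal] at this

end Pool.Agent.Results.MP_485179_nt.Rotations
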