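import Pool.Agent.H73.KP.Sys4

/-!
# Hardy-Littlewood laws for all patterns, with all zeros of the zeta function and the Poisson law, do not imply their uniformity

A system of generalised primes (Beurling primes) is a sequence `1 < q 0 < q 1 < ...` of real numbers; its generalised
integers are the products `gint q n = ∏ q (k - 1)` over the prime factors of `n` (with multiplicity, the factor being the
`k`-th prime number), one for every `n ≥ 1`, counted with multiplicity; for `q = 2, 3, 5, ...` one has `gint q n = n`.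

The theorem. Prescribe the zeros `1 / 2 ± i γ k` of the zeta function in `Re s > 1 / 3` with their multiplicities (any sequence
with `O((T + 1) ^ ε)` terms in every window `[T, T + 1]`; if the Riemann hypothesis holds, for instance the ordinates of the
zeros of the Riemann zeta function). (1) There are systems with these zeros, with the analogues of the Riemann hypothesis and
of the Lindelöf hypothesis, whose number of primes up to `x` is given by the explicit formula (`explicit γ x`, a function of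
the zeros only) with the error `O(x ^ ε)`, and in which the numbers of all patterns `D` (finite sets of natural numbers with
`0 ∈ D`, `|D| ≥ 2`; `tupleCount q D x` counts the primes `p ≤ x` such that `p + d` is a prime for all `d ∈ D`) follow prescribed laws
`∫_2^x n_D(u) du / log u` with the error `O(x ^ (1 / 2 + ε))`, for all `D` at the same time; the laws are arbitrary up to two
necessary-looking conditions: `n_D → 0`, and `n_{D'} = o(n_D)` if `D'` contains a translate of `D ≠ D'`; and the numbers of the primes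
in the intervals `(x, x + l log x]` follow the Poisson law with the mean `l`, for every `l > 0`. (Gallagher deduced this law for the
prime numbers from the uniform conjecture; so the converse fails: the laws of all patterns and the Poisson law do not imply the
uniformity.) (2) In particular
`n_D = c_D / (log u) ^ (|D| - 1)` can be taken with arbitrary constants (the Hardy-Littlewood constants, or others), and
then the uniform asymptotic formula of the question still fails, already for pairs, and in every range: the shifts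
`d ≤ g x` are not uniform for a given `g → ∞`, however slow; there is an even `d ≤ g x` with at most `√x` pairs `(p, p + d)`.

Proof. The density `(main term - ∑ 2 cos (γ k log u) / √u) / log u`, where the zero `γ k` enters at `start γ k`, is positive,
and the integral of `u ^ (-s)` against it continues with the prescribed logarithmic singularities (`Pool.Agent.H49.BZ`, helper49). Cut
`(1, ∞)` into blocks of slowly growing masses `a b + 1` with respect to this density; the block gets `a b + 1` points: a random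
pattern `D ⊆ [0, a b]` placed at a random position and wrapped around, and further points at large distances; or no pattern
(this is the case of almost all blocks), and then a rotated copy of a deterministic configuration of `m (m ^ 2) ^ m` points, which
consists of one segment for every function `{0, ..., m - 1} → {0, ..., m ^ 2 - 1}` (`Pool.Agent.H73.KP`). Each
point is distributed with the density, whatever the pattern; the probabilities of the patterns solve a triangular system.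
The method of conditional expectations for countably many tests (the exponential moments of the twisted sums
`∑_{q ≤ x} q ^ (-i m)` and of the numbers of all patterns), outside null sets that would create integer distances between
neighbouring blocks, gives the sequence (`Pool.Agent.H73.KZ`, `Pool.Agent.H73.KP`, with helper87, helper49, helper93, helper82,
helper34, helper83). The Poisson law is that of the deterministic configurations. In a block the distance `a b + 1` does not occur.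
-/

set_option autoImplicit false

open Filter Topology MeasureTheory Complex

namespace Pool.Agent.Results.MP_485179_nt.UniformityNotImplied

open Pool.Agent.H49.BP (gint)

/-- The number of generalised primes up to `x`. -/
noncomputable def primeCount (q : ℕ → ℝ) (x : ℝ) : ℕ := {j : ℕ | q j ≤ x}.ncard

/-- The number of generalised integers up to `x`, with multiplicity. -/
noncomputable def intCount (q : ℕ → ℝ) (x : ℝ) : ℕ := {n : ℕ | 1 ≤ n ∧ gint q n ≤ x}.ncard

/-- The number of the generalised primes `p ≤ x` such that `p + d` is a generalised prime for every `d ∈ D`. -/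
noncomputable def tupleCount (q : ℕ → ℝ) (D : Finset ℕ) (x : ℝ) : ℕ :=
  {n : ℕ | q n ≤ x ∧ ∀ d ∈ D, ∃ k, q k = q n + d}.ncard

/-- The number of generalised primes in `(x, x + y]`. -/
noncomputable def windowCount (q : ℕ → ℝ) (x y : ℝ) : ℕ := {n : ℕ | x < q n ∧ q n ≤ x + y}.ncard

/-- The Poisson law: for all `l > 0` and `k`, the measure of the set of the `x ∈ [2, X]` with exactly `k` primes in `(x, x + l log x]`,
divided by `X`, tends to `exp (-l) l ^ k / k!`. -/
def PoissonLaw (q : ℕ → ℝ) : Prop :=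
  ∀ l : ℝ, 0 < l → ∀ k : ℕ,
    Tendsto (fun X : ℝ => volume.real {x : ℝ | 2 ≤ x ∧ x ≤ X ∧ windowCount q x (l * Real.log x) = k} / X) atTop
      (𝓝 (Real.exp (-l) * l ^ k / (k.factorial : ℝ)))

/-- Every window `[T, T + 1]`, `T ≥ 0`, contains at most `C (T + 1) ^ ε` terms of the sequence, for every `ε > 0`, with a
constant `C` which depends on `ε`. -/
def Windows (γ : ℕ → ℝ) : Prop :=
  ∀ ε : ℝ, 0 < ε → ∃ C : ℝ, ∀ T : ℝ, 0 ≤ T → ∀ S : Finset ℕ,
    (∀ k ∈ S, T ≤ γ k ∧ γ k ≤ T + 1) → (S.card : ℝ) ≤ C * (T + 1) ^ ε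

/-- The generalised primes `q` have the zeta function `Z s / (s - 1)` and satisfy the analogues of the Riemann hypothesis and of
the Lindelöf hypothesis: they increase strictly from `q 0 > 1`; their number up to `x` is `∫_2^x du / log u + O(x ^ (1 / 2 + ε))`
and the number of the generalised integers up to `x` is `ρ x + O(x ^ (1 / 2 + ε))` for every `ε > 0`, with a `ρ > 0`; the
function `Z` is holomorphic in `Re s > 1 / 3` and `∑ (gint q n) ^ (-s) = Z s / (s - 1)` for `Re s > 1`; in `Re s > 1 / 2` one has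
`Z s = s * exp (G s)` with a holomorphic function `G` that is at most `C √(log (|Im s| + 3))` for `Re s ≥ σ`, for every `σ > 1 / 2`. -/
def RHSystem (q : ℕ → ℝ) (Z : ℂ → ℂ) : Prop :=
  StrictMono q ∧ 1 < q 0 ∧
    (∀ ε : ℝ, 0 < ε → ∃ C : ℝ, ∀ x : ℝ, 2 ≤ x →
      |(primeCount q x : ℝ) - ∫ u in (2 : ℝ)..x, (Real.log u)⁻¹| ≤ C * x ^ (1 / 2 + ε)) ∧
    (∃ ρ : ℝ, 0 < ρ ∧ ∀ ε : ℝ, 0 < ε → ∃ C : ℝ, ∀ x : ℝ, 1 ≤ x →
      |(intCount q x : ℝ) - ρ * x| ≤ C * x ^ (1 / 2 + ε)) ∧
    (∀ s : ℂ, 1 / 3 < s.re → AnalyticAt ℂ Z s) ∧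
    (∀ s : ℂ, 1 < s.re → ∑' n : ℕ, ((gint q (n + 1) : ℝ) : ℂ) ^ (-s) = Z s / (s - 1)) ∧
    ∃ G : ℂ → ℂ, DifferentiableOn ℂ G {s | 1 / 2 < s.re} ∧
      (∀ s : ℂ, 1 / 2 < s.re → Z s = s * Complex.exp (G s)) ∧
      ∀ σ : ℝ, 1 / 2 < σ → ∃ C : ℝ, ∀ s : ℂ, σ ≤ s.re → ‖G s‖ ≤ C * √(Real.log (|s.im| + 3))

/-- The point from which on the zero of height `γ k` is felt: `exp (π N / (γ k))` with the least natural number `N` such that
it is at least `(8 k + 9) ^ 2 * (1 + γ k)`. -/
noncomputable def start (γ : ℕ → ℝ) (k : ℕ) : ℝ :=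
  Real.exp (Real.pi * ⌈γ k * (2 * Real.log (8 * k + 9) + Real.log (1 + γ k)) / Real.pi⌉₊ / γ k)

/-- The right side of the explicit formula: the integral from `1` to `x` of
`(1 - 1 / u - (u ^ (-1 / 2) - 1 / u) / 2 - ∑ 2 cos (γ k log u) / √u) / log u`, the sum over the `k` with `start γ k ≤ u`. -/
noncomputable def explicit (γ : ℕ → ℝ) (x : ℝ) : ℝ :=
  ∫ u in (1 : ℝ)..x, (((1 - u⁻¹) - 1 / 2 * ((√u)⁻¹ - u⁻¹)) / Real.log u -
    ∑' k, if start γ k ≤ u then 2 * Real.cos (γ k * Real.log u) / (√u * Real.log u) else 0)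

/-- The zeros of `Z` in the half-plane `Re s > 1 / 3` are the points `1 / 2 ± i γ k`, and the order of such a zero is the number
of the `k` with this ordinate. -/
def HasZeros (Z : ℂ → ℂ) (γ : ℕ → ℝ) : Prop :=
  ∀ s : ℂ, 1 / 3 < s.re → analyticOrderAt Z s = {k | s = 1 / 2 + γ k * I ∨ s = 1 / 2 - γ k * I}.encard

/-- The uniform asymptotic formula of the question, for the generalised primes `q` and the constants `c`: for every `k ≥ 1` and
`ε > 0`, for all large `x` and all `k`-element sets `D` of integers in `[2, (log x) ^ (k + 1)]` with `c ({0} ∪ D) ≠ 0`, the number of the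
`{0} ∪ D`-tuples up to `x` is `c ({0} ∪ D) x / (log x) ^ (k + 1)` up to the factor `1 ± ε`. -/
def UniformHL (q : ℕ → ℝ) (c : Finset ℕ → ℝ) : Prop :=
  ∀ k : ℕ, 1 ≤ k → ∀ ε : ℝ, 0 < ε → ∀ᶠ x : ℝ in atTop, ∀ D : Finset ℕ, D.card = k →
    (∀ d ∈ D, 2 ≤ d ∧ (d : ℝ) ≤ (Real.log x) ^ (k + 1)) → c (insert 0 D) ≠ 0 →
      |(tupleCount q (insert 0 D) x : ℝ) - c (insert 0 D) * (x / (Real.log x) ^ (k + 1))| ≤
        ε * (c (insert 0 D) * (x / (Real.log x) ^ (k + 1)))

/-- `√x` is small -/
theorem sqrt_small {κ : ℝ} (hκ : 0 < κ) : ∀ᶠ x : ℝ in atTop, √x < κ / 2 * (x / (Real.log x) ^ 2) := by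
  have h := (isLittleO_log_rpow_rpow_atTop (2 : ℝ) (show (0 : ℝ) < 1 / 2 by norm_num)).bound
    (show (0 : ℝ) < κ / 4 by positivity)
  filter_upwards [h, eventually_gt_atTop (Real.exp 1)] with x hx h1
  have hx0 : 0 < x := (Real.exp_pos 1).trans h1
  have hl : 1 < Real.log x := by
    rw [Real.lt_log_iff_exp_lt hx0]
    exact h1
  rw [Real.norm_of_nonneg (Real.rpow_nonneg (by linarith) _),
    Real.norm_of_nonneg (Real.rpow_nonneg hx0.le _), ← Real.sqrt_eq_rpow] at hx
  have e : Real.log x ^ (2 : ℝ) = Real.log x ^ 2 := by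
    rw [← Real.rpow_natCast]
    norm_num
  rw [e] at hx
  have hs : √x * √x = x := Real.mul_self_sqrt hx0.le
  have hsp : 0 < √x := Real.sqrt_pos.2 hx0
  have hl2 : 0 < Real.log x ^ 2 := by positivity
  rw [← mul_div_assoc, lt_div_iff₀ hl2]
  nlinarith

/-- Let `0 < γ 0 ≤ γ 1 ≤ ...` be any sequence with at most `O((T + 1) ^ ε)` terms in every window `[T, T + 1]`.
(1) For every family of laws `n D` of the patterns `D` (finite sets of natural numbers with `0 ∈ D`, `|D| ≥ 2`), measurable,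
nonnegative, bounded, tending to `0`, and such that `n D' = o(n D)` if `D' ≠ D` contains a translate of `D`, and for every `g → ∞`, there are
generalised primes with the analogues of the Riemann hypothesis and of the Lindelöf hypothesis, with the zeros `1 / 2 ± i γ k` of the
zeta function in `Re s > 1 / 3`, with the explicit formula with the error `O(x ^ ε)`, and with the Poisson law, such that the number of
the `D`-tuples up to `x` is `∫_2^x (n D u) du / log u + O(x ^ (1 / 2 + ε))` for every `D`, whereas for all large `x` there is a `d ≤ g x` with at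
most `√x` pairs `(p, p + d)` and at most `√x` pairs `(p, p + d + 1)` with `p ≤ x`.
(2) For all constants `c D ≥ 0` (`c D' = 0` if `D'` contains a translate of a `D` with `c D = 0`) with `c {0, d} ≥ κ > 0` for the even `d`,
for instance for the constants of Hardy and Littlewood, and for every `g → ∞`, there are generalised primes with the analogues
of the Riemann hypothesis and of the Lindelöf hypothesis, with the zeros `1 / 2 ± i γ k` of the zeta function in `Re s > 1 / 3`, with
the explicit formula with the error `O(x ^ ε)`, and with the Poisson law, such that the number of the `D`-tuples up to `x` is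
`c D ∫_2^x du / (log u) ^ |D| + O(x ^ (1 / 2 + ε))` for every `D`, whereas for all large `x` there is an even `d ≤ g x` with at most `√x`
pairs `(p, p + d)`, `p ≤ x`; the uniform asymptotic formula is false. -/
theorem result (γ : ℕ → ℝ) (hpos : ∀ k, 0 < γ k) (hmono : Monotone γ) (hwin : Windows γ) :
    (∀ n : Finset ℕ → ℝ → ℝ, (∀ D, Measurable (n D)) → (∀ D u, 0 ≤ n D u) → (∀ D, ∃ B : ℝ, ∀ u, n D u ≤ B) →
      (∀ D : Finset ℕ, 0 ∈ D → 2 ≤ D.card → Tendsto (n D) atTop (𝓝 0)) →
      (∀ D D' : Finset ℕ, 0 ∈ D → 2 ≤ D.card → 0 ∈ D' → D ≠ D' → (∃ t, ∀ d ∈ D, t + d ∈ D') →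
        ∀ δ : ℝ, 0 < δ → ∀ᶠ u in atTop, n D' u ≤ δ * n D u) →
      ∀ g : ℝ → ℝ, Tendsto g atTop atTop → ∃ (q : ℕ → ℝ) (Z : ℂ → ℂ), RHSystem q Z ∧ HasZeros Z γ ∧ PoissonLaw q ∧
        (∀ ε : ℝ, 0 < ε → ∃ C : ℝ, ∀ x : ℝ, 1 ≤ x → |(primeCount q x : ℝ) - explicit γ x| ≤ C * x ^ ε) ∧
        (∀ D : Finset ℕ, 0 ∈ D → 2 ≤ D.card → ∀ ε : ℝ, 0 < ε → ∃ C : ℝ, ∀ x : ℝ, 2 ≤ x →
          |(tupleCount q D x : ℝ) - ∫ u in (2 : ℝ)..x, n D u / Real.log u| ≤ C * x ^ (1 / 2 + ε)) ∧
        ∀ᶠ x in atTop, ∃ d : ℕ, 2 ≤ d ∧ (d : ℝ) + 1 ≤ g x ∧ (tupleCount q {0, d} x : ℝ) ≤ √x ∧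
          (tupleCount q {0, d + 1} x : ℝ) ≤ √x) ∧
    ∀ c : Finset ℕ → ℝ, (∀ D, 0 ≤ c D) →
      (∀ D D' : Finset ℕ, 0 ∈ D → 2 ≤ D.card → 0 ∈ D' → (∃ t, ∀ d ∈ D, t + d ∈ D') → c D = 0 → c D' = 0) →
      (∃ κ : ℝ, 0 < κ ∧ ∀ d : ℕ, Even d → 2 ≤ d → κ ≤ c {0, d}) →
      ∀ g : ℝ → ℝ, Tendsto g atTop atTop → ∃ (q : ℕ → ℝ) (Z : ℂ → ℂ), RHSystem q Z ∧ HasZeros Z γ ∧ PoissonLaw q ∧
        (∀ ε : ℝ, 0 < ε → ∃ C : ℝ, ∀ x : ℝ, 1 ≤ x → |(primeCount q x : ℝ) - explicit γ x| ≤ C * x ^ ε) ∧
        (∀ D : Finset ℕ, 0 ∈ D → 2 ≤ D.card → ∀ ε : ℝ, 0 < ε → ∃ C : ℝ, ∀ x : ℝ, 2 ≤ x →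
          |(tupleCount q D x : ℝ) - c D * ∫ u in (2 : ℝ)..x, 1 / (Real.log u) ^ D.card| ≤ C * x ^ (1 / 2 + ε)) ∧
        (∀ᶠ x in atTop, ∃ d : ℕ, Even d ∧ 2 ≤ d ∧ (d : ℝ) ≤ g x ∧ (tupleCount q {0, d} x : ℝ) ≤ √x) ∧
        ¬ UniformHL q c := by
  have hmt : ∀ {D D' : Finset ℕ}, Pool.Agent.H73.KT.mult D D' ≠ 0 → ∃ t, ∀ d ∈ D, t + d ∈ D' := by
    intro D D' h
    obtain ⟨t, _, h⟩ := Pool.Agent.H73.KT.mult_ne h
    exact ⟨t, h⟩
  have main : ∀ n : Finset ℕ → ℝ → ℝ, Pool.Agent.H73.KT.Laws n → ∀ g : ℝ → ℝ, Tendsto g atTop atTop →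
      ∃ (q : ℕ → ℝ) (Z : ℂ → ℂ), (RHSystem q Z ∧ HasZeros Z γ ∧ PoissonLaw q ∧
        (∀ ε : ℝ, 0 < ε → ∃ C : ℝ, ∀ x : ℝ, 1 ≤ x → |(primeCount q x : ℝ) - explicit γ x| ≤ C * x ^ ε)) ∧
        (∀ D : Finset ℕ, 0 ∈ D → 2 ≤ D.card → ∀ ε : ℝ, 0 < ε → ∃ C : ℝ, ∀ x : ℝ, 2 ≤ x →
          |(tupleCount q D x : ℝ) - ∫ u in (2 : ℝ)..x, n D u / Real.log u| ≤ C * x ^ (1 / 2 + ε)) ∧
        ∀ᶠ x in atTop, ∃ d : ℕ, 2 ≤ d ∧ (d : ℝ) + 1 ≤ g x ∧ (tupleCount q {0, d} x : ℝ) ≤ √x ∧
          (tupleCount q {0, d + 1} x : ℝ) ≤ √x := by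
    intro n hn g hg
    let _ : Pool.Agent.H49.BZ.Dens := Pool.Agent.H49.BZ.dens γ hpos
    have _ : Pool.Agent.H73.KZ.DV := Pool.Agent.H49.BZ.dens_DV hpos
    obtain ⟨V, hV⟩ := Pool.Agent.H73.KP.sparse2 hg
    obtain ⟨a, S, q, hst, hD, hcount, hlaw, _, hpoi⟩ :=
      Pool.Agent.H73.KP.realise_poisson (Pool.Agent.H73.KP.dens_asy hpos hmono hwin) hn V
    have hq := hst.2.2.2.1
    obtain ⟨⟨Z, hZ1, hZ2⟩, hex⟩ :=
      Pool.Agent.H73.KZ.base_system hpos hmono hwin hq.1 hq.2.1 hq.2.2.1 hD hcount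
    exact ⟨q, Z, ⟨hZ1, hZ2, hpoi, hex⟩, hlaw, hV a S q hst⟩
  constructor
  · intro n h1 h2 h3 h4 h5 g hg
    obtain ⟨q, Z, ⟨hZ1, hZ2, hZ4, hZ3⟩, hlaw, hsp⟩ :=
      main n ⟨h1, h2, h3, h4, fun D D' hD hD2 hD' hne hm => h5 D D' hD hD2 hD' hne (hmt hm)⟩ g hg
    exact ⟨q, Z, hZ1, hZ2, hZ4, hZ3, hlaw, hsp⟩
  · intro c hc hc0 ⟨κ, hκ, hκ2⟩ g hg
    have hl2 : Tendsto (fun x : ℝ => (Real.log x) ^ 2) atTop atTop :=
      (tendsto_pow_atTop two_ne_zero).comp Real.tendsto_log_atTop
    have hgm : Tendsto (fun x => min (g x) ((Real.log x) ^ 2)) atTop atTop := by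
      refine tendsto_atTop.2 fun K => ?_
      filter_upwards [tendsto_atTop.1 hg K, tendsto_atTop.1 hl2 K] with x h1 h2
      exact le_min h1 h2
    obtain ⟨q, Z, ⟨hZ1, hZ2, hZ4, hZ3⟩, hlaw, hsp⟩ := main _ (Pool.Agent.H73.KT.nb_laws hc
      (fun D D' hD hD2 hD' hm => hc0 D D' hD hD2 hD' (hmt hm)) (Bad := fun _ => False) (fun _ _ _ h => h)
      (X := ∅) MeasurableSet.empty) _ hgm
    have hev : ∀ᶠ x in atTop, ∃ d : ℕ, Even d ∧ 2 ≤ d ∧ (d : ℝ) ≤ min (g x) ((Real.log x) ^ 2) ∧
        (tupleCount q {0, d} x : ℝ) ≤ √x := by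
      filter_upwards [hsp] with x hx
      obtain ⟨d, hd1, hd2, hd3, hd4⟩ := hx
      rcases Nat.even_or_odd d with h | h
      · exact ⟨d, h, hd1, by linarith, hd3⟩
      · exact ⟨d + 1, h.add_one, by omega, by push_cast; linarith, hd4⟩
    refine ⟨q, Z, hZ1, hZ2, hZ4, hZ3, fun D hD hD2 ε hε => ?_, ?_, fun hU => ?_⟩
    · obtain ⟨C, hC⟩ := hlaw D hD hD2 ε hε
      refine ⟨C, fun x hx => ?_⟩
      rw [← Pool.Agent.H73.KT.nb_int (Bad := fun _ => False) (X := ∅) hD2 (fun h => h) hx]
      exact hC x hx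
    · filter_upwards [hev] with x hx
      obtain ⟨d, h1, h2, h3, h4⟩ := hx
      exact ⟨d, h1, h2, h3.trans (min_le_left _ _), h4⟩
    · obtain ⟨x, h1, h2, h3, h4⟩ := ((hU 1 le_rfl (1 / 2) (by norm_num)).and
        (hev.and ((sqrt_small hκ).and (eventually_gt_atTop (Real.exp 1))))).exists
      obtain ⟨d, hd1, hd2, hd3, hd4⟩ := h2
      have hcd := hκ2 d hd1 hd2
      have h5 := h1 {d} (Finset.card_singleton d) (fun e he => by
        rw [Finset.mem_singleton] at he
        subst he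
        exact ⟨hd2, hd3.trans (min_le_right _ _)⟩) (by
        show c {0, d} ≠ 0
        linarith)
      have h6 : |(tupleCount q {0, d} x : ℝ) - c {0, d} * (x / (Real.log x) ^ 2)| ≤
        1 / 2 * (c {0, d} * (x / (Real.log x) ^ 2)) := h5
      have hx0 : 0 < x := (Real.exp_pos 1).trans h4
      have h7 : 0 ≤ x / (Real.log x) ^ 2 := by positivity
      have h8 := (abs_le.1 h6).1
      have h9 := mul_le_mul_of_nonneg_right hcd h7
      linarith

end Pool.Agent.Results.MP_485179_nt.UniformityNotImplied
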